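import Mathlib
import Pool.Agent.TH881.RK.Defs
import Pool.Agent.TH761.J2920

/-! Job 3803 (RK-C): the dual moment inequality for vectors of shifts, from the abstract one. -/

set_option autoImplicit false

namespace Pool.Agent.TH751.J3803

open Finset Filter Topology
open Pool.Agent.TH881
open Pool.Agent.TH881.RG
open Pool.Agent.TH881.RQ
open Pool.Agent.TH881.RK
open Pool.Agent.H373R2.T7
open Pool.Agent.TH761.J2920

/-- the bad pairs -/
def bk (pr : Bool) (m p : ℕ) (a : LA pr p) (t : Fin m → ZMod p) : Prop := ∃ j, t j + a.1 = 0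

section loc

variable (pr : Bool) (m p : ℕ) [hp : Fact p.Prime]

open Classical in
lemma card_good (K : ℕ) (τ : Fin K → LA pr p)
    [DecidablePred fun y : Fin m → ZMod p => ∀ j, ¬ bk pr m p (τ j) y] :
    (univ.filter (fun y : Fin m → ZMod p => ∀ j, ¬ bk pr m p (τ j) y)).card =
      (univ.filter (fun z : ZMod p => ∀ j, z + (τ j).1 ≠ 0)).card ^ m := by
  rw [← Fintype.card_piFinset_const]
  congr 1
  ext y
  simp only [mem_filter, mem_univ, true_and, Fintype.mem_piFinset, bk, not_exists]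
  exact forall_comm

open Classical in
lemma card_good' (K : ℕ) (τ : Fin K → LA pr p) (x : LA pr p)
    [DecidablePred fun y : Fin m → ZMod p => (∀ j, ¬ bk pr m p (τ j) y) ∧ ¬ bk pr m p x y] :
    (univ.filter (fun y : Fin m → ZMod p => (∀ j, ¬ bk pr m p (τ j) y) ∧ ¬ bk pr m p x y)).card =
      (univ.filter (fun z : ZMod p => (∀ j, z + (τ j).1 ≠ 0) ∧ z + x.1 ≠ 0)).card ^ m := by
  rw [← Fintype.card_piFinset_const]
  congr 1
  ext y
  simp only [mem_filter, mem_univ, true_and, Fintype.mem_piFinset, bk, not_exists]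
  constructor
  · rintro ⟨h1, h2⟩ l
    exact ⟨fun j => h1 j l, h2 l⟩
  · intro h
    exact ⟨fun j l => (h l).1 j, fun l => (h l).2⟩

lemma step (K : ℕ) (τ : Fin K → LA pr p) (x : LA pr p)
    [DecidablePred fun y : Fin m → ZMod p => ∀ j, ¬ bk pr m p (τ j) y]
    [DecidablePred fun y : Fin m → ZMod p => (∀ j, ¬ bk pr m p (τ j) y) ∧ ¬ bk pr m p x y]
    [Decidable (∃ l, τ l = x)] :
    ((univ.filter (fun y : Fin m → ZMod p => (∀ j, ¬ bk pr m p (τ j) y) ∧
        ¬ bk pr m p x y)).card : ℝ) ≤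
      (if ∃ l, τ l = x then ((p : ℝ) / ((p : ℝ) - 1)) ^ m else 1) * (1 - 1 / (p : ℝ)) ^ m *
        ((univ.filter (fun y : Fin m → ZMod p => ∀ j, ¬ bk pr m p (τ j) y)).card : ℝ) := by
  classical
  have hp2 : (2 : ℝ) ≤ p := by exact_mod_cast hp.out.two_le
  rw [card_good, card_good']
  push_cast
  set G := univ.filter (fun z : ZMod p => ∀ j, z + (τ j).1 ≠ 0) with hG
  split_ifs with hl
  · obtain ⟨l, hl⟩ := hl
    have h1 : univ.filter (fun z : ZMod p => (∀ j, z + (τ j).1 ≠ 0) ∧ z + x.1 ≠ 0) = G := by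
      rw [hG]
      ext z
      simp only [mem_filter, mem_univ, true_and]
      constructor
      · exact fun h => h.1
      · intro h
        refine ⟨h, ?_⟩
        rw [← hl]
        exact h l
    rw [h1, ← mul_pow]
    have h2 : (p : ℝ) / ((p : ℝ) - 1) * (1 - 1 / (p : ℝ)) = 1 := by
      have h3 : (p : ℝ) - 1 ≠ 0 := by linarith
      have h4 : (p : ℝ) ≠ 0 := by linarith
      field_simp
    rw [h2, one_pow, one_mul]
  · have hx : -x.1 ∈ G := by
      rw [hG, mem_filter]
      refine ⟨mem_univ _, fun j h0 => hl ⟨j, Subtype.ext ?_⟩⟩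
      linear_combination h0
    have h1 : univ.filter (fun z : ZMod p => (∀ j, z + (τ j).1 ≠ 0) ∧ z + x.1 ≠ 0) =
        G.erase (-x.1) := by
      ext z
      rw [mem_erase, hG]
      simp only [mem_filter, mem_univ, true_and]
      rw [and_comm]
      refine and_congr_left fun _ => ?_
      rw [ne_eq, ne_eq, add_eq_zero_iff_eq_neg]
    have hpos : 1 ≤ G.card := card_pos.2 ⟨_, hx⟩
    rw [h1, card_erase_of_mem hx, one_mul, ← mul_pow, Nat.cast_sub hpos]
    have hg : ((G.card : ℕ) : ℝ) ≤ p := by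
      have : G.card ≤ p := (card_le_univ G).trans (ZMod.card p).le
      exact_mod_cast this
    have hg1 : (1 : ℝ) ≤ G.card := by exact_mod_cast hpos
    refine pow_le_pow_left₀ (by push_cast; linarith) ?_ m
    have h5 : ((G.card : ℕ) : ℝ) / p ≤ 1 := (div_le_one (by linarith)).2 hg
    push_cast
    have h6 : (1 - 1 / (p : ℝ)) * G.card = G.card - (G.card : ℝ) / p := by ring
    rw [h6]
    linarith

end loc

lemma gk_iff {w m : ℕ} (φ : ZMod (Wp w) ≃+* ∀ i : I w, ZMod i.1) (t : Fin m → ZMod (Wp w))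
    (a : ZMod (Wp w)) : gk t a ↔ ∀ i, ∀ j, φ (t j) i + φ a i ≠ 0 := by
  unfold gk
  simp only [unit_iff φ, map_add, Pi.add_apply]
  exact forall_comm

theorem stMIdk_of (h : StAbs3) (pr : Bool) (m : ℕ) : StMIdk pr m := by
  intro w K k hK hk e he0 he1 S hS hS0
  obtain ⟨φ⟩ := exists_equiv w
  classical
  have hp2 : ∀ i : I w, (2 : ℝ) ≤ (i.1 : ℝ) := fun i => by
    exact_mod_cast (mem_pz.1 i.2).2.two_le
  have hAq : ∀ i : I w, (0 : ℝ) < Fintype.card (LA pr i.1) := fun i => by
    exact_mod_cast Fintype.card_pos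
  have hpos : ∀ i : I w, (0 : ℝ) < 1 - 1 / (i.1 : ℝ) := fun i => by
    have := hp2 i
    rw [sub_pos, div_lt_one (by linarith)]
    linarith
  have hle : ∀ i : I w, 1 - 1 / (i.1 : ℝ) ≤ 1 := fun i => by
    have : 0 ≤ 1 / (i.1 : ℝ) := by positivity
    linarith
  have hVz : Vz w ^ m = ∏ i : I w, (1 - 1 / (i.1 : ℝ)) ^ m := by
    unfold Vz
    rw [prod_pow, ← prod_coe_sort (pz w)]
  let ψ : (Fin m → ZMod (Wp w)) ≃ (∀ i : I w, Fin m → ZMod i.1) :=
    (Equiv.piCongrRight (fun _ : Fin m => φ.toEquiv)).trans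
      (Equiv.piComm (fun (_ : Fin m) (i : I w) => ZMod i.1))
  have hψ : ∀ t i j, ψ t i j = φ (t j) i := fun t i j => rfl
  have main := h (I w) (fun i => LA pr i.1) (fun i => Fin m → ZMod i.1)
    (fun i a t => bk pr m i.1 a t) (fun i a a' => a = a')
    (fun i _ => (1 - 1 / (i.1 : ℝ)) ^ m) (fun i _ => (pow_pos (hpos i) m).le)
    (fun i _ => pow_le_one₀ (hpos i).le (hle i))
    (fun i => (Fintype.card (LA pr i.1) : ℝ) * (1 - 1 / (i.1 : ℝ)) ^ m) (fun i => by
      rw [sum_const, nsmul_eq_mul, card_univ])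
    (fun i => mul_pos (hAq i) (pow_pos (hpos i) m))
    (fun i => 1 / (Aq pr i.1 : ℝ)) (fun i => ((i.1 : ℝ) / ((i.1 : ℝ) - 1)) ^ m)
    (fun i => by
      have := hp2 i
      refine one_le_pow₀ ?_
      rw [le_div_iff₀ (by linarith)]
      linarith)
    (fun i => by positivity)
    (fun i K τ x => by
      have h1 := step pr m i.1 K τ x
      convert h1)
    (fun i x => by
      have h1 : (univ.filter (fun x' : LA pr i.1 => x = x')) = {x} := by
        ext x'
        simp only [mem_filter, mem_univ, true_and, mem_singleton]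
        exact eq_comm
      have h2 : ∀ F : Finset (LA pr i.1), F = {x} →
          ∑ _x' ∈ F, (1 - 1 / (i.1 : ℝ)) ^ m ≤
            1 / (Aq pr i.1 : ℝ) * ((Fintype.card (LA pr i.1) : ℝ) * (1 - 1 / (i.1 : ℝ)) ^ m) := by
        rintro F rfl
        rw [sum_singleton, card_LA, ← mul_assoc, one_div_mul_cancel, one_mul]
        have h3 := hAq i
        rw [card_LA] at h3
        exact h3.ne'
      exact h2 _ (by
        rw [← h1]
        congr!))
    K k hK hk (fun y => e (φ.symm (fun i => (y i).1))) (fun x => he0 _) (fun x => he1 _) S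
    (by
      rw [hS, sum_AA pr φ, hVz]
      exact univ_any _ _ _)
    hS0
  have hT : ∏ i : I w, ((Fintype.card (LA pr i.1) : ℝ) * (1 - 1 / (i.1 : ℝ)) ^ m) =
      (AA pr w).card * Vz w ^ m := by
    rw [prod_mul_distrib, ← hVz, card_AA, Fintype.card_pi, Nat.cast_prod]
  have hMM : MMd (fun p => 1 / (Aq pr p : ℝ)) K (m * k) w = ∏ i : I w,
      (1 + (K : ℝ) * (1 / (Aq pr i.1 : ℝ)) * ((((i.1 : ℝ) / ((i.1 : ℝ) - 1)) ^ m) ^ k - 1)) := by
    unfold MMd
    rw [← prod_coe_sort (pz w)]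
    refine prod_congr rfl fun i _ => ?_
    rw [pow_mul]
  rw [hMM, ← hT]
  refine le_trans (le_of_eq ?_) main
  have hcard : ((Wp w : ℕ) : ℝ) ^ m = Fintype.card (∀ i : I w, Fin m → ZMod i.1) := by
    have h1 : Fintype.card (∀ i : I w, Fin m → ZMod i.1) = (∏ i : I w, i.1) ^ m := by
      rw [Fintype.card_pi, ← prod_pow]
      refine prod_congr rfl fun i _ => ?_
      rw [Fintype.card_fun, Fintype.card_fin, ZMod.card]
    rw [h1]
    unfold Wp
    rw [← prod_coe_sort (pz w)]
    push_cast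
    rfl
  rw [hcard]
  congr 1
  · refine Eq.trans (Fintype.sum_equiv ψ _ (fun x => (∑ y : (∀ i : I w, LA pr i.1),
        if ∀ i : I w, ¬ bk pr m i.1 (y i) (x i) then e (φ.symm (fun i => (y i).1)) else 0) ^ K)
        ?_) ((univ_any _ _ _).trans (sum_congr rfl ?_))
    · intro t
      congr 1
      rw [sum_AA pr φ]
      apply sum_congr rfl
      intro y _
      have h1 : gk t (φ.symm fun i => (y i).1) ↔ ∀ i : I w, ¬ bk pr m i.1 (y i) (ψ t i) := by
        rw [gk_iff φ, φ.apply_symm_apply]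
        unfold bk
        simp only [not_exists, hψ]
      by_cases h2 : gk t (φ.symm fun i => (y i).1)
      · rw [if_pos h2, if_pos (h1.1 h2)]
      · rw [if_neg h2, if_neg (fun h3 => h2 (h1.2 h3))]
    · intro x _
      congr 1
      exact univ_any _ _ _
  · rw [card_any]

end Pool.Agent.TH751.J3803
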