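import Mathlib

/-!
Analytic part for the Borel strong theon result: kernels on `[0,1]` with invariance,
two-block differentiation along independent scales.
-/

open MeasureTheory Set Filter Topology ProbabilityTheory
open scoped ENNReal

namespace Pool.Agent.TH751.Theon

noncomputable section

/-! ### cells -/

/-- index of the level `k` cell of `x`. -/
def cellIdx (k : ℕ) (x : unitInterval) : ℕ := ⌊(k : ℝ) * (x : ℝ)⌋₊

lemma measurable_cellIdx (k : ℕ) : Measurable (cellIdx k) := by
  unfold cellIdx
  exact Nat.measurable_floor.comp (by fun_prop)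

/-- the level `k` cell with index `j`. -/
def cell (k j : ℕ) : Set unitInterval := cellIdx k ⁻¹' {j}

lemma measurableSet_cell (k j : ℕ) : MeasurableSet (cell k j) :=
  measurable_cellIdx k (measurableSet_singleton j)

/-- uniform measure on the cell (or on the whole interval when the cell is null). -/
def hm (k j : ℕ) : Measure unitInterval :=
  if volume (cell k j) = 0 then volume else ProbabilityTheory.cond volume (cell k j)

instance (k j : ℕ) : IsProbabilityMeasure (hm k j) := by
  unfold hm
  split_ifs with h
  · infer_instance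
  · exact cond_isProbabilityMeasure h

lemma hm_ac (k j : ℕ) : hm k j ≪ (volume : Measure unitInterval) := by
  unfold hm
  split_ifs with h
  · exact Measure.AbsolutelyContinuous.rfl
  · exact cond_absolutelyContinuous

/-- the kernel. -/
def kap (k : ℕ) : Kernel unitInterval unitInterval where
  toFun x := hm k (cellIdx k x)
  measurable' := (measurable_from_nat (f := hm k)).comp (measurable_cellIdx k)

lemma kap_apply (k : ℕ) (x : unitInterval) : kap k x = hm k (cellIdx k x) := rfl

instance (k : ℕ) : IsMarkovKernel (kap k) := ⟨fun x => by rw [kap_apply]; infer_instance⟩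

lemma kap_ac (k : ℕ) (x : unitInterval) : kap k x ≪ (volume : Measure unitInterval) :=
  hm_ac k _

lemma tsum_inter_cell (k : ℕ) {A : Set unitInterval} (hA : MeasurableSet A) :
    ∑' j, (volume : Measure unitInterval) (A ∩ cell k j) = volume A := by
  rw [← measure_iUnion]
  · congr 1
    ext x
    simp [cell]
  · intro i j hij
    refine Set.disjoint_left.2 ?_
    rintro x ⟨_, hx⟩ ⟨_, hx'⟩
    exact hij (by simp only [cell, mem_preimage, mem_singleton_iff] at hx hx'; rw [← hx, ← hx'])
  · intro j
    exact hA.inter (measurableSet_cell k j)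

lemma kap_inv (k : ℕ) : (volume : Measure unitInterval).bind (kap k) = volume := by
  ext A hA
  rw [Measure.bind_apply hA (kap k).aemeasurable]
  have h1 : ∫⁻ x, kap k x A ∂(volume : Measure unitInterval)
      = ∫⁻ j, hm k j A ∂((volume : Measure unitInterval).map (cellIdx k)) := by
    rw [lintegral_map (measurable_from_nat (f := fun j => hm k j A)) (measurable_cellIdx k)]
    rfl
  rw [h1, lintegral_countable', ← tsum_inter_cell k hA]
  refine tsum_congr fun j => ?_
  rw [Measure.map_apply (measurable_cellIdx k) (measurableSet_singleton j)]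
  change hm k j A * volume (cell k j) = _
  unfold hm
  split_ifs with h
  · rw [h, mul_zero]
    exact (measure_mono_null inter_subset_right h).symm
  · rw [cond_apply (measurableSet_cell k j), mul_comm, ← mul_assoc,
      ENNReal.mul_inv_cancel h (measure_ne_top _ _), one_mul, inter_comm]

lemma dist_lt_of_cell {k : ℕ} (hk : 0 < k) {x y : unitInterval} (h : cellIdx k x = cellIdx k y) :
    dist x y < 1 / k := by
  have hk' : (0 : ℝ) < k := by exact_mod_cast hk
  have hx0 : 0 ≤ (k : ℝ) * (x : ℝ) := mul_nonneg hk'.le x.2.1
  have hy0 : 0 ≤ (k : ℝ) * (y : ℝ) := mul_nonneg hk'.le y.2.1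
  unfold cellIdx at h
  have hx1 := Nat.floor_le hx0
  have hx2 := Nat.lt_floor_add_one ((k : ℝ) * (x : ℝ))
  have hy1 := Nat.floor_le hy0
  have hy2 := Nat.lt_floor_add_one ((k : ℝ) * (y : ℝ))
  rw [h] at hx1 hx2
  rw [Subtype.dist_eq, Real.dist_eq, lt_div_iff₀ hk']
  have : |(x : ℝ) - y| * k = |k * (x : ℝ) - k * y| := by
    rw [← mul_sub, abs_mul, abs_of_pos hk', mul_comm]
  rw [this, abs_lt]
  constructor <;> linarith

lemma kap_far {k : ℕ} (hk : 0 < k) {δ : ℝ} (hδ : 1 / (k : ℝ) ≤ δ) :
    ∀ᵐ x ∂(volume : Measure unitInterval), kap k x {y | δ ≤ dist x y} = 0 := by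
  have hnull : ∀ᵐ x ∂(volume : Measure unitInterval), volume (cell k (cellIdx k x)) ≠ 0 := by
    have : {x : unitInterval | ¬ volume (cell k (cellIdx k x)) ≠ 0}
        ⊆ ⋃ j ∈ {j : ℕ | volume (cell k j) = 0}, cell k j := by
      intro x hx
      simp only [ne_eq, not_not, mem_ofPred_eq] at hx
      exact mem_biUnion (show cellIdx k x ∈ {j : ℕ | volume (cell k j) = 0} from hx) rfl
    refine measure_mono_null this ?_
    rw [measure_biUnion_null_iff (to_countable _)]
    intro j hj
    exact hj
  filter_upwards [hnull] with x hx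
  rw [kap_apply, hm, if_neg hx]
  refine measure_mono_null (t := (cell k (cellIdx k x))ᶜ) ?_ ?_
  · intro y hy hyc
    have : cellIdx k x = cellIdx k y := by
      simpa [cell, eq_comm] using hyc
    exact absurd (dist_lt_of_cell hk this) (not_lt.2 (hδ.trans hy))
  · rw [cond_apply (measurableSet_cell k _), inter_compl_self, measure_empty, mul_zero]

end

end Pool.Agent.TH751.Theon
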