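import Pool.Agent.TH751.TheonA

/-!
Two-block differentiation along independent scales.
-/

open MeasureTheory Set Filter Topology ProbabilityTheory Metric
open scoped ENNReal

namespace Pool.Agent.TH751.Theon

noncomputable section

/-- If a family of probability measures `R z` is subinvariant and concentrated close to `z`, then
`S` is almost preserved. -/
lemma dis_bound {Z : Type*} [PseudoMetricSpace Z] [MeasurableSpace Z]
    (μ : Measure Z) [IsProbabilityMeasure μ] (R : Z → Measure Z)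
    (hprob : ∀ z, IsProbabilityMeasure (R z)) {K S U : Set Z} (hKS : K ⊆ S) (hSU : S ⊆ U)
    (hUK : MeasurableSet (U \ K))
    (hinv : ∫⁻ z, R z (U \ K) ∂μ ≤ μ (U \ K)) {δ : ℝ} (hδ : thickening δ K ⊆ U)
    (hfar : ∀ᵐ z ∂μ, R z {y | δ ≤ dist z y} = 0) :
    ∫⁻ z, R z {y | ¬ (y ∈ S ↔ z ∈ S)} ∂μ ≤ 2 * μ (U \ K) := by
  have h1 : ∀ᵐ z ∂μ, R z {y | ¬ (y ∈ S ↔ z ∈ S)} ≤ R z (U \ K) + (U \ K).indicator 1 z := by
    filter_upwards [hfar] with z hz
    have := hprob z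
    by_cases hzUK : z ∈ U \ K
    · simp only [hzUK, indicator_of_mem, Pi.one_apply]
      exact prob_le_one.trans le_add_self
    · simp only [hzUK, not_false_eq_true, indicator_of_notMem, add_zero]
      calc R z {y | ¬ (y ∈ S ↔ z ∈ S)} ≤ R z ((U \ K) ∪ {y | δ ≤ dist z y}) := by
            refine measure_mono fun y hy => ?_
            by_cases hd : δ ≤ dist z y
            · exact Or.inr hd
            · left
              rw [not_le] at hd
              simp only [mem_ofPred_eq] at hy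
              by_cases hzS : z ∈ S
              · have hyS : y ∉ S := fun h => hy (by simp [h, hzS])
                have hzK : z ∈ K := by
                  by_contra hzK
                  exact hzUK ⟨hSU hzS, hzK⟩
                refine ⟨hδ (mem_thickening_iff.2 ⟨z, hzK, by rwa [dist_comm]⟩), fun h => hyS (hKS h)⟩
              · have hyS : y ∈ S := by
                  by_contra h
                  exact hy (by simp [h, hzS])
                refine ⟨hSU hyS, fun hyK => ?_⟩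
                exact hzUK ⟨hδ (mem_thickening_iff.2 ⟨y, hyK, hd⟩), fun h => hzS (hKS h)⟩
        _ ≤ R z (U \ K) + R z {y | δ ≤ dist z y} := measure_union_le _ _
        _ = R z (U \ K) := by rw [hz, add_zero]
  calc ∫⁻ z, R z {y | ¬ (y ∈ S ↔ z ∈ S)} ∂μ
      ≤ ∫⁻ z, (R z (U \ K) + (U \ K).indicator 1 z) ∂μ := lintegral_mono_ae h1
    _ = ∫⁻ z, R z (U \ K) ∂μ + ∫⁻ z, (U \ K).indicator 1 z ∂μ := by
        rw [lintegral_add_right _ (measurable_one.indicator hUK)]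
    _ ≤ μ (U \ K) + μ (U \ K) := by
        refine add_le_add hinv ?_
        rw [lintegral_indicator_one hUK]
    _ = 2 * μ (U \ K) := (two_mul _).symm

section blocks

variable {X₁ X₂ : Type*} [MeasurableSpace X₁] [MeasurableSpace X₂]

/-- disagreement when the first block is resampled. -/
def dis1 (κ : Kernel X₁ X₁) (S : Set (X₁ × X₂)) (z : X₁ × X₂) : ℝ≥0∞ :=
  κ z.1 {y | ¬ ((y, z.2) ∈ S ↔ z ∈ S)}

/-- disagreement when the second block is resampled. -/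
def dis2 (κ : Kernel X₂ X₂) (S : Set (X₁ × X₂)) (z : X₁ × X₂) : ℝ≥0∞ :=
  κ z.2 {y | ¬ ((z.1, y) ∈ S ↔ z ∈ S)}

lemma dis1_compl (κ : Kernel X₁ X₁) (S : Set (X₁ × X₂)) : dis1 κ Sᶜ = dis1 κ S := by
  ext z
  unfold dis1
  congr 1
  ext y
  simp only [mem_compl_iff, mem_ofPred_eq]
  tauto

lemma dis2_compl (κ : Kernel X₂ X₂) (S : Set (X₁ × X₂)) : dis2 κ Sᶜ = dis2 κ S := by
  ext z
  unfold dis2
  congr 1
  ext y
  simp only [mem_compl_iff, mem_ofPred_eq]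
  tauto

lemma measurable_dis1 (κ : Kernel X₁ X₁) [IsMarkovKernel κ] {S : Set (X₁ × X₂)}
    (hS : MeasurableSet S) : Measurable (dis1 κ S) := by
  have h : MeasurableSet {p : (X₁ × X₂) × X₁ | ¬ ((p.2, p.1.2) ∈ S ↔ p.1 ∈ S)} := by
    have h1 : MeasurableSet {p : (X₁ × X₂) × X₁ | (p.2, p.1.2) ∈ S} :=
      (show Measurable fun p : (X₁ × X₂) × X₁ => (p.2, p.1.2) by fun_prop) hS
    have h2 : MeasurableSet {p : (X₁ × X₂) × X₁ | p.1 ∈ S} := measurable_fst hS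
    exact (h1.iff h2).compl
  exact Kernel.measurable_kernel_prodMk_left (κ := κ.comap Prod.fst measurable_fst) h

lemma measurable_dis2 (κ : Kernel X₂ X₂) [IsMarkovKernel κ] {S : Set (X₁ × X₂)}
    (hS : MeasurableSet S) : Measurable (dis2 κ S) := by
  have h : MeasurableSet {p : (X₁ × X₂) × X₂ | ¬ ((p.1.1, p.2) ∈ S ↔ p.1 ∈ S)} := by
    have h1 : MeasurableSet {p : (X₁ × X₂) × X₂ | (p.1.1, p.2) ∈ S} :=
      (show Measurable fun p : (X₁ × X₂) × X₂ => (p.1.1, p.2) by fun_prop) hS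
    have h2 : MeasurableSet {p : (X₁ × X₂) × X₂ | p.1 ∈ S} := measurable_fst hS
    exact (h1.iff h2).compl
  exact Kernel.measurable_kernel_prodMk_left (κ := κ.comap Prod.snd measurable_snd) h

/-- basic bound -/
lemma prod_compl_le (κ₁ : Kernel X₁ X₁) (κ₂ : Kernel X₂ X₂) [IsMarkovKernel κ₁]
    [IsMarkovKernel κ₂] {S : Set (X₁ × X₂)} (hS : MeasurableSet S) {z : X₁ × X₂} (hz : z ∈ S) :
    ((κ₁ z.1).prod (κ₂ z.2)) Sᶜ ≤ ∫⁻ y, dis2 κ₂ S (y, z.2) ∂(κ₁ z.1) + dis1 κ₁ S z := by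
  rw [Measure.prod_apply hS.compl]
  have hm : MeasurableSet {y : X₁ | (y, z.2) ∉ S} :=
    (measurable_prodMk_right hS).compl
  have h1 : dis1 κ₁ S z = ∫⁻ y, {y : X₁ | (y, z.2) ∉ S}.indicator 1 y ∂(κ₁ z.1) := by
    rw [lintegral_indicator_one hm]
    unfold dis1
    congr 1
    ext y
    simp [hz]
  rw [h1, ← lintegral_add_right _ (measurable_one.indicator hm)]
  refine lintegral_mono fun y => ?_
  by_cases hy : (y, z.2) ∈ S
  · refine le_add_right ?_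
    unfold dis2
    refine measure_mono fun y₂ hy₂ => ?_
    simp only [mem_preimage, mem_compl_iff] at hy₂
    simp [hy, hy₂]
  · have : y ∈ {y : X₁ | (y, z.2) ∉ S} := hy
    simp only [this, indicator_of_mem, Pi.one_apply]
    exact prob_le_one.trans le_add_self

variable (μ₁ : Measure X₁) (μ₂ : Measure X₂) [IsProbabilityMeasure μ₁] [IsProbabilityMeasure μ₂]

lemma lintegral_inv {X : Type*} [MeasurableSpace X] {μ : Measure X} {κ : Kernel X X}
    (hinv : μ.bind κ = μ) {g : X → ℝ≥0∞} (hg : Measurable g) :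
    ∫⁻ x, ∫⁻ y, g y ∂κ x ∂μ = ∫⁻ x, g x ∂μ := by
  conv_rhs => rw [← hinv]
  rw [Measure.lintegral_bind κ.aemeasurable hg.aemeasurable]

/-- total error function of level `m`. -/
def errB (κ₁ : ℕ → Kernel X₁ X₁) (κ₂ : ℕ → Kernel X₂ X₂) (S : Set (X₁ × X₂)) (m : ℕ)
    (z : X₁ × X₂) : ℝ≥0∞ :=
  ∑ n ∈ Finset.range (m + 1), ∫⁻ y, dis2 (κ₂ m) S (y, z.2) ∂(κ₁ n z.1) + dis1 (κ₁ m) S z

lemma lintegral_errB (κ₁ : ℕ → Kernel X₁ X₁) (κ₂ : ℕ → Kernel X₂ X₂)
    [∀ n, IsMarkovKernel (κ₁ n)] [∀ n, IsMarkovKernel (κ₂ n)]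
    (hinv₁ : ∀ n, μ₁.bind (κ₁ n) = μ₁) {S : Set (X₁ × X₂)} (hS : MeasurableSet S) (m : ℕ) :
    ∫⁻ z, errB κ₁ κ₂ S m z ∂(μ₁.prod μ₂) =
      (m + 1) * ∫⁻ z, dis2 (κ₂ m) S z ∂(μ₁.prod μ₂) + ∫⁻ z, dis1 (κ₁ m) S z ∂(μ₁.prod μ₂) := by
  unfold errB
  have hmeas : ∀ n, Measurable fun z : X₁ × X₂ => ∫⁻ y, dis2 (κ₂ m) S (y, z.2) ∂(κ₁ n z.1) := by
    intro n
    have := Measurable.lintegral_kernel_prod_right'
      (κ := (κ₁ n).comap (Prod.fst : X₁ × X₂ → X₁) measurable_fst)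
      (f := fun p : (X₁ × X₂) × X₁ => dis2 (κ₂ m) S (p.2, p.1.2))
      ((measurable_dis2 (κ₂ m) hS).comp (by fun_prop))
    exact this
  rw [lintegral_add_right _ (measurable_dis1 (κ₁ m) hS), lintegral_finsetSum]
  · congr 1
    have : ∀ n ∈ Finset.range (m + 1),
        ∫⁻ z, ∫⁻ y, dis2 (κ₂ m) S (y, z.2) ∂(κ₁ n z.1) ∂(μ₁.prod μ₂)
          = ∫⁻ z, dis2 (κ₂ m) S z ∂(μ₁.prod μ₂) := by
      intro n _
      rw [lintegral_prod_symm _ (hmeas n).aemeasurable,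
        lintegral_prod_symm _ (measurable_dis2 (κ₂ m) hS).aemeasurable]
      refine lintegral_congr fun x₂ => ?_
      exact lintegral_inv (hinv₁ n) (g := fun y => dis2 (κ₂ m) S (y, x₂))
        ((measurable_dis2 (κ₂ m) hS).comp (by fun_prop))
    rw [Finset.sum_congr rfl this, Finset.sum_const, Finset.card_range, nsmul_eq_mul]
    push_cast
    rfl
  · intro n _
    exact hmeas n

lemma ae_tendsto_errB (κ₁ : ℕ → Kernel X₁ X₁) (κ₂ : ℕ → Kernel X₂ X₂)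
    [∀ n, IsMarkovKernel (κ₁ n)] [∀ n, IsMarkovKernel (κ₂ n)]
    (hinv₁ : ∀ n, μ₁.bind (κ₁ n) = μ₁) {S : Set (X₁ × X₂)} (hS : MeasurableSet S)
    (h1 : ∀ m : ℕ, (m + 1) * ∫⁻ z, dis1 (κ₁ m) S z ∂(μ₁.prod μ₂) ≤ (1 / 2) ^ m)
    (h2 : ∀ m : ℕ, (m + 1) * ∫⁻ z, dis2 (κ₂ m) S z ∂(μ₁.prod μ₂) ≤ (1 / 2) ^ m) :
    ∀ᵐ z ∂(μ₁.prod μ₂), Tendsto (fun m => errB κ₁ κ₂ S m z) atTop (𝓝 0) := by
  have hmeas : ∀ m, Measurable (errB κ₁ κ₂ S m) := by
    intro m
    unfold errB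
    refine Measurable.add (Finset.measurable_fun_sum _ fun n _ => ?_) (measurable_dis1 (κ₁ m) hS)
    exact Measurable.lintegral_kernel_prod_right'
      (κ := (κ₁ n).comap (Prod.fst : X₁ × X₂ → X₁) measurable_fst)
      (f := fun p : (X₁ × X₂) × X₁ => dis2 (κ₂ m) S (p.2, p.1.2))
      ((measurable_dis2 (κ₂ m) hS).comp (by fun_prop))
  have hsum : ∫⁻ z, ∑' m, errB κ₁ κ₂ S m z ∂(μ₁.prod μ₂) ≠ ∞ := by
    rw [lintegral_tsum (fun m => (hmeas m).aemeasurable)]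
    refine ne_top_of_le_ne_top (b := ∑' m : ℕ, (2 : ℝ≥0∞) * (1 / 2) ^ m) ?_ ?_
    · rw [ENNReal.tsum_mul_left]
      refine ENNReal.mul_ne_top (by norm_num) ?_
      rw [ENNReal.tsum_geometric, one_div, ENNReal.one_sub_inv_two]
      simp
    · refine ENNReal.tsum_le_tsum fun m => ?_
      rw [lintegral_errB μ₁ μ₂ κ₁ κ₂ hinv₁ hS m, two_mul]
      refine add_le_add (h2 m) (le_trans ?_ (h1 m))
      exact le_mul_of_one_le_left zero_le le_add_self
  filter_upwards [ae_lt_top (Measurable.tsum hmeas) hsum] with z hz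
  exact ENNReal.tendsto_atTop_zero_of_tsum_ne_top hz.ne

lemma prod_compl_le_errB (κ₁ : ℕ → Kernel X₁ X₁) (κ₂ : ℕ → Kernel X₂ X₂)
    [∀ n, IsMarkovKernel (κ₁ n)] [∀ n, IsMarkovKernel (κ₂ n)] {S : Set (X₁ × X₂)}
    (hS : MeasurableSet S) {z : X₁ × X₂} {n m : ℕ} (hnm : n ≤ m) (hz : z ∈ S) :
    ((κ₁ n z.1).prod (κ₂ m z.2)) Sᶜ ≤ errB κ₁ κ₂ S m z + errB κ₁ κ₂ S n z := by
  refine (prod_compl_le (κ₁ n) (κ₂ m) hS hz).trans ?_
  refine add_le_add ?_ ?_
  · unfold errB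
    refine le_add_right ?_
    exact Finset.single_le_sum (f := fun n => ∫⁻ y, dis2 (κ₂ m) S (y, z.2) ∂(κ₁ n z.1))
      (fun _ _ => zero_le) (Finset.mem_range.2 (Nat.lt_succ_of_le hnm))
  · unfold errB
    exact le_add_self

lemma errB_compl (κ₁ : ℕ → Kernel X₁ X₁) (κ₂ : ℕ → Kernel X₂ X₂) (S : Set (X₁ × X₂)) :
    errB κ₁ κ₂ Sᶜ = errB κ₁ κ₂ S := by
  unfold errB
  ext m z
  simp only [dis1_compl, dis2_compl]

end blocks

end

end Pool.Agent.TH751.Theon
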