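import Pool.Agent.TH751.TheonB

/-!
Fast scales on `[0,1]`.
-/

open MeasureTheory Set Filter Topology ProbabilityTheory Metric
open scoped ENNReal

namespace Pool.Agent.TH751.Theon

noncomputable section

/-- the product kernel on `[0,1]²`. -/
def kap2 (k : ℕ) : Kernel (unitInterval × unitInterval) (unitInterval × unitInterval) :=
  (kap k).parallelComp (kap k)

instance (k : ℕ) : IsMarkovKernel (kap2 k) := by unfold kap2; infer_instance

lemma kap2_apply (k : ℕ) (z : unitInterval × unitInterval) :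
    kap2 k z = (kap k z.1).prod (kap k z.2) := Kernel.parallelComp_apply _ _ _

abbrev vol1 : Measure unitInterval := volume

abbrev vol2 : Measure (unitInterval × unitInterval) := (volume : Measure unitInterval).prod volume

abbrev vol3 : Measure (unitInterval × (unitInterval × unitInterval)) := vol1.prod vol2

lemma kap2_inv (k : ℕ) : vol2.bind (kap2 k) = vol2 := by
  refine (Measure.prod_eq fun s t hs ht => ?_).symm
  rw [Measure.bind_apply (hs.prod ht) (kap2 k).aemeasurable]
  simp only [kap2_apply, Measure.prod_prod]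
  have h1 : Measurable fun x => kap k x s := Kernel.measurable_coe _ hs
  have h2 : Measurable fun x => kap k x t := Kernel.measurable_coe _ ht
  rw [lintegral_prod_mul h1.aemeasurable h2.aemeasurable]
  rw [← Measure.bind_apply hs (kap k).aemeasurable, ← Measure.bind_apply ht (kap k).aemeasurable,
    kap_inv]

lemma kap2_far {k : ℕ} (hk : 0 < k) {δ : ℝ} (hδ : 1 / (k : ℝ) ≤ δ) :
    ∀ᵐ x ∂vol2, kap2 k x {y | δ ≤ dist x y} = 0 := by
  have h := kap_far hk hδ
  have h1 : ∀ᵐ x ∂vol2, kap k x.1 {y | δ ≤ dist x.1 y} = 0 :=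
    Measure.quasiMeasurePreserving_fst.ae h
  have h2 : ∀ᵐ x ∂vol2, kap k x.2 {y | δ ≤ dist x.2 y} = 0 :=
    Measure.quasiMeasurePreserving_snd.ae h
  filter_upwards [h1, h2] with x hx1 hx2
  rw [kap2_apply]
  refine measure_mono_null (t := ({y | δ ≤ dist x.1 y} ×ˢ univ) ∪ (univ ×ˢ {y | δ ≤ dist x.2 y}))
    ?_ ?_
  · intro y hy
    simp only [mem_ofPred_eq, Prod.dist_eq, le_max_iff] at hy
    rcases hy with hy | hy
    · exact Or.inl ⟨hy, mem_univ _⟩
    · exact Or.inr ⟨mem_univ _, hy⟩
  · rw [measure_union_null_iff]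
    constructor
    · rw [Measure.prod_prod, hx1, zero_mul]
    · rw [Measure.prod_prod, hx2, mul_zero]

lemma measurableSet_dis {Z : Type*} [MeasurableSpace Z] {S : Set Z} (hS : MeasurableSet S)
    (z : Z) : MeasurableSet {w | ¬ (w ∈ S ↔ z ∈ S)} := by
  have h2 : MeasurableSet {w : Z | z ∈ S} := MeasurableSet.const _
  exact ((hS : MeasurableSet {w | w ∈ S}).iff h2).compl

lemma exists_scale {S : Set (unitInterval × (unitInterval × unitInterval))}
    (hS : MeasurableSet S) {ε : ℝ≥0∞} (hε : ε ≠ 0) :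
    ∃ k : ℕ, ∫⁻ z, dis1 (kap k) S z ∂vol3 ≤ ε ∧ ∫⁻ z, dis2 (kap2 k) S z ∂vol3 ≤ ε := by
  have hε4 : ε / 4 ≠ 0 := by
    simp [ENNReal.div_eq_zero_iff, hε]
  obtain ⟨U, hSU, hUo, -, hU⟩ := hS.exists_isOpen_sdiff_lt (μ := vol3) (measure_ne_top _ _) hε4
  obtain ⟨K, hKS, hKc, hK⟩ := hS.exists_isCompact_sdiff_lt (μ := vol3) (measure_ne_top _ _) hε4
  have hSU : S ⊆ U := hSU
  obtain ⟨δ, hδ0, hδ⟩ := hKc.exists_thickening_subset_open hUo (hKS.trans hSU)
  obtain ⟨k, hk⟩ := exists_nat_gt (1 / δ)
  have hk0 : 0 < k := by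
    have : (0 : ℝ) < k := lt_trans (by positivity) hk
    exact_mod_cast this
  have hkδ : 1 / (k : ℝ) ≤ δ := by
    rw [div_le_iff₀ (by exact_mod_cast hk0)]
    rw [div_lt_iff₀ hδ0] at hk
    nlinarith
  have hUKm : MeasurableSet (U \ K) := hUo.measurableSet.diff hKc.measurableSet
  have hUKε : 2 * vol3 (U \ K) ≤ ε := by
    have : vol3 (U \ K) ≤ ε / 4 + ε / 4 := by
      refine (measure_mono (t := (U \ S) ∪ (S \ K)) ?_).trans
        ((measure_union_le _ _).trans (add_le_add hU.le hK.le))
      intro x hx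
      by_cases hxS : x ∈ S
      · exact Or.inr ⟨hxS, hx.2⟩
      · exact Or.inl ⟨hx.1, hxS⟩
    calc 2 * vol3 (U \ K) ≤ 2 * (ε / 4 + ε / 4) := by gcongr
      _ = 4 * (ε / 4) := by ring
      _ = ε := ENNReal.mul_div_cancel (by norm_num) (by norm_num)
  refine ⟨k, ?_, ?_⟩
  · -- first block
    set R : unitInterval × (unitInterval × unitInterval) →
        Measure (unitInterval × (unitInterval × unitInterval)) :=
      fun z => (kap k z.1).map (fun y => (y, z.2)) with hR
    have hRa : ∀ z {A : Set (unitInterval × (unitInterval × unitInterval))}, MeasurableSet A →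
        R z A = kap k z.1 {y | (y, z.2) ∈ A} := by
      intro z A hA
      rw [hR]
      exact Measure.map_apply (by fun_prop) hA
    have h1 : ∫⁻ z, dis1 (kap k) S z ∂vol3 = ∫⁻ z, R z {y | ¬ (y ∈ S ↔ z ∈ S)} ∂vol3 := by
      refine lintegral_congr fun z => ?_
      rw [hRa z (measurableSet_dis hS z)]
      rfl
    rw [h1]
    refine (dis_bound vol3 R (fun z => ?_) hKS hSU hUKm ?_ hδ ?_).trans hUKε
    · rw [hR]
      exact Measure.isProbabilityMeasure_map (by fun_prop)
    · have hmeas : Measurable fun z : unitInterval × (unitInterval × unitInterval) =>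
          kap k z.1 {y | (y, z.2) ∈ U \ K} :=
        Kernel.measurable_kernel_prodMk_left (κ := (kap k).comap Prod.fst measurable_fst)
          (t := {p : (unitInterval × (unitInterval × unitInterval)) × unitInterval |
            (p.2, p.1.2) ∈ U \ K})
          ((show Measurable fun p : (unitInterval × (unitInterval × unitInterval)) × unitInterval
            => (p.2, p.1.2) by fun_prop) hUKm)
      simp only [hRa _ hUKm]
      rw [lintegral_prod_symm _ hmeas.aemeasurable, Measure.prod_apply_symm hUKm]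
      refine lintegral_mono fun x₂ => ?_
      have hm : MeasurableSet {y : unitInterval | (y, x₂) ∈ U \ K} :=
        measurable_prodMk_right hUKm
      change ∫⁻ x, kap k x {y | (y, x₂) ∈ U \ K} ∂volume ≤ _
      rw [← Measure.bind_apply hm (kap k).aemeasurable, kap_inv]
      rfl
    · have h := kap_far hk0 hkδ
      have h1 : ∀ᵐ z ∂vol3, kap k z.1 {y | δ ≤ dist z.1 y} = 0 :=
        Measure.quasiMeasurePreserving_fst.ae h
      filter_upwards [h1] with z hz
      have hm : MeasurableSet {y : unitInterval × (unitInterval × unitInterval) | δ ≤ dist z y} :=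
        measurableSet_le measurable_const (by fun_prop)
      rw [hRa z hm]
      convert hz using 3
      ext y
      simp only [mem_ofPred_eq, Prod.dist_eq, dist_self, le_max_iff, or_iff_left_iff_imp]
      exact fun h => absurd h (by simp [hδ0])
  · -- second block
    set R : unitInterval × (unitInterval × unitInterval) →
        Measure (unitInterval × (unitInterval × unitInterval)) :=
      fun z => (kap2 k z.2).map (fun y => (z.1, y)) with hR
    have hRa : ∀ z {A : Set (unitInterval × (unitInterval × unitInterval))}, MeasurableSet A →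
        R z A = kap2 k z.2 {y | (z.1, y) ∈ A} := by
      intro z A hA
      rw [hR]
      exact Measure.map_apply (by fun_prop) hA
    have h1 : ∫⁻ z, dis2 (kap2 k) S z ∂vol3 = ∫⁻ z, R z {y | ¬ (y ∈ S ↔ z ∈ S)} ∂vol3 := by
      refine lintegral_congr fun z => ?_
      rw [hRa z (measurableSet_dis hS z)]
      rfl
    rw [h1]
    refine (dis_bound vol3 R (fun z => ?_) hKS hSU hUKm ?_ hδ ?_).trans hUKε
    · rw [hR]
      exact Measure.isProbabilityMeasure_map (by fun_prop)
    · have hmeas : Measurable fun z : unitInterval × (unitInterval × unitInterval) =>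
          kap2 k z.2 {y | (z.1, y) ∈ U \ K} :=
        Kernel.measurable_kernel_prodMk_left (κ := (kap2 k).comap Prod.snd measurable_snd)
          (t := {p : (unitInterval × (unitInterval × unitInterval)) ×
            (unitInterval × unitInterval) | (p.1.1, p.2) ∈ U \ K})
          ((show Measurable fun p : (unitInterval × (unitInterval × unitInterval)) ×
            (unitInterval × unitInterval) => (p.1.1, p.2) by fun_prop) hUKm)
      simp only [hRa _ hUKm]
      rw [lintegral_prod _ hmeas.aemeasurable, Measure.prod_apply hUKm]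
      refine lintegral_mono fun x₁ => ?_
      have hm : MeasurableSet {y : unitInterval × unitInterval | (x₁, y) ∈ U \ K} :=
        measurable_prodMk_left hUKm
      change ∫⁻ x, kap2 k x {y | (x₁, y) ∈ U \ K} ∂vol2 ≤ _
      rw [← Measure.bind_apply hm (kap2 k).aemeasurable, kap2_inv]
      rfl
    · have h := kap2_far hk0 hkδ
      have h1 : ∀ᵐ z ∂vol3, kap2 k z.2 {y | δ ≤ dist z.2 y} = 0 :=
        Measure.quasiMeasurePreserving_snd.ae h
      filter_upwards [h1] with z hz
      have hm : MeasurableSet {y : unitInterval × (unitInterval × unitInterval) | δ ≤ dist z y} :=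
        measurableSet_le measurable_const (by fun_prop)
      rw [hRa z hm]
      convert hz using 3
      ext y
      simp only [mem_ofPred_eq]
      rw [Prod.dist_eq (x := z), dist_self, le_max_iff]
      exact ⟨fun h => h.resolve_left (not_le.2 hδ0), Or.inr⟩

/-- The fast scales. -/
theorem exists_fast {S : Set (unitInterval × (unitInterval × unitInterval))}
    (hS : MeasurableSet S) :
    ∃ s : ℕ → ℕ, ∀ᵐ z ∂vol3,
      Tendsto (fun m => errB (fun n => kap (s n)) (fun n => kap2 (s n)) S m z) atTop (𝓝 0) := by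
  have h : ∀ m : ℕ, ∃ k : ℕ, ∫⁻ z, dis1 (kap k) S z ∂vol3 ≤ (1 / 2) ^ m / (m + 1) ∧
      ∫⁻ z, dis2 (kap2 k) S z ∂vol3 ≤ (1 / 2) ^ m / (m + 1) := by
    intro m
    refine exists_scale hS ?_
    refine (ENNReal.div_pos (pow_ne_zero _ (by simp)) ?_).ne'
    exact ENNReal.add_ne_top.2 ⟨ENNReal.natCast_ne_top m, ENNReal.one_ne_top⟩
  choose s hs using h
  have hne : ∀ m : ℕ, ((m : ℝ≥0∞) + 1) ≠ 0 := fun m => by simp
  have hnt : ∀ m : ℕ, ((m : ℝ≥0∞) + 1) ≠ ∞ := fun m =>
    ENNReal.add_ne_top.2 ⟨ENNReal.natCast_ne_top m, ENNReal.one_ne_top⟩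
  refine ⟨s, ae_tendsto_errB vol1 vol2 _ _ (fun n => kap_inv (s n)) hS ?_ ?_⟩
  · intro m
    calc ((m : ℝ≥0∞) + 1) * ∫⁻ z, dis1 (kap (s m)) S z ∂vol3
        ≤ (m + 1) * ((1 / 2) ^ m / (m + 1)) := by gcongr; exact (hs m).1
      _ = (1 / 2) ^ m := ENNReal.mul_div_cancel (hne m) (hnt m)
  · intro m
    calc ((m : ℝ≥0∞) + 1) * ∫⁻ z, dis2 (kap2 (s m)) S z ∂vol3
        ≤ (m + 1) * ((1 / 2) ^ m / (m + 1)) := by gcongr; exact (hs m).2
      _ = (1 / 2) ^ m := ENNReal.mul_div_cancel (hne m) (hnt m)

end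

end Pool.Agent.TH751.Theon
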