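import Mathlib

/-!
Definitions for theons over the language with one binary predicate symbol.
-/

open MeasureTheory Set

namespace Pool.Agent.TH751.Theon

/-- `r(V)`: the set of non-empty subsets of `V`. -/
abbrev NESub (V : Type) : Type := {A : Finset V // A.Nonempty}

/-- `𝓔_V = [0,1]^{r(V)}`; it carries Lebesgue measure `volume` (the product measure). -/
abbrev EV (V : Type) : Type := NESub V → unitInterval

/-- The singleton `{i}` as an element of `r(V)`. -/
def sing {V : Type} (i : V) : NESub V := ⟨{i}, Finset.singleton_nonempty i⟩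

/-- `α^* : 𝓔_V → 𝓔_W`, `α^*(x)_A = x_{α(A)}`, for an injection `α : W → V`. -/
def pull {W V : Type} (α : W ↪ V) (x : EV V) : EV W := fun A => x ⟨A.1.map α, A.2.map⟩

/-- The diagonal `𝓓_V = {x : x_{{i}} = x_{{j}} for some i ≠ j}`. -/
def diag (V : Type) : Set (EV V) := {x | ∃ i j : V, i ≠ j ∧ x (sing i) = x (sing j)}

/-- `T_ind(M, 𝓝)` for a structure `M` on `V` with one binary predicate and a Euclidean structure
`𝓝_E = N ⊆ 𝓔_2`. -/
def Tind {V : Type} (M : V → V → Prop) (N : Set (EV (Fin 2))) : Set (EV V) :=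
  {x | ∀ α : Fin 2 ↪ V, pull α x ∈ N ↔ M (α 0) (α 1)}

/-- `M` is canonical: the predicate is false on tuples with a repeated entry. -/
def Canonical {V : Type} (M : V → V → Prop) : Prop := ∀ v, ¬ M v v

/-- `M` is a model of `T_{C_4}`: a graph with no four distinct vertices inducing a 4-cycle. -/
def ModelC4 {V : Type} (M : V → V → Prop) : Prop :=
  (∀ v, ¬ M v v) ∧ (∀ u v, M u v → M v u) ∧
    ∀ a b c d : V, a ≠ b → a ≠ c → a ≠ d → b ≠ c → b ≠ d → c ≠ d →
      ¬ (M a b ∧ M b c ∧ M c d ∧ M d a ∧ ¬ M a c ∧ ¬ M b d)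

/-- `N` (Lebesgue measurability is required separately) is a weak `T_{C_4}`-on:
`T_ind(M, N)` is a null set for every finite canonical `M` that is not a model. -/
def WeakC4 (N : Set (EV (Fin 2))) : Prop :=
  ∀ (V : Type) [Fintype V] (M : V → V → Prop), Canonical M → ¬ ModelC4 M →
    (volume : Measure (EV V)) (Tind M N) = 0

/-- `N` (Lebesgue measurability is required separately) is a strong `T_{C_4}`-on:
`T_ind(M, N)` lies in the diagonal for every finite canonical `M` that is not a model. -/
def StrongC4 (N : Set (EV (Fin 2))) : Prop :=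
  ∀ (V : Type) [Fintype V] (M : V → V → Prop), Canonical M → ¬ ModelC4 M → Tind M N ⊆ diag V

end Pool.Agent.TH751.Theon
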