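import Pool.Agent.TH751.TheonC
import Pool.Agent.TH751.TheonDefs

/-!
From product kernels to `𝓔_V`.
-/

open MeasureTheory Set Filter Topology ProbabilityTheory Metric
open scoped ENNReal

namespace Pool.Agent.TH751.Theon

noncomputable section

section pigeneral

variable {ι ι' ι'' X : Type*} [Fintype ι] [Fintype ι'] [Fintype ι''] [MeasurableSpace X]

lemma pi_comp_map (j : ι' → ι) (hj : Function.Injective j) (ν : ι → Measure X)
    [∀ i, IsProbabilityMeasure (ν i)] :
    (Measure.pi ν).map (fun (x : ι → X) (i : ι') => x (j i)) = Measure.pi (fun i => ν (j i)) := by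
  classical
  refine (Measure.pi_eq fun s hs => ?_).symm
  have hm : Measurable (fun (x : ι → X) (i : ι') => x (j i)) := by fun_prop
  rw [Measure.map_apply hm (MeasurableSet.univ_pi hs)]
  let t : ι → Set X := fun i => if h : ∃ i', j i' = i then s h.choose else univ
  have ht : ∀ i', t (j i') = s i' := by
    intro i'
    have h : ∃ i'', j i'' = j i' := ⟨i', rfl⟩
    have h2 : h.choose = i' := hj h.choose_spec
    simp only [t, dif_pos h]
    rw [h2]
  have hpre : (fun (x : ι → X) (i : ι') => x (j i)) ⁻¹' (pi univ s) = pi univ t := by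
    ext x
    simp only [mem_preimage, Set.mem_pi, mem_univ, forall_const]
    constructor
    · intro h i
      by_cases hi : ∃ i', j i' = i
      · obtain ⟨i', rfl⟩ := hi
        rw [ht]
        exact h i'
      · simp only [t, dif_neg hi, mem_univ]
    · intro h i'
      rw [← ht i']
      exact h (j i')
  rw [hpre, Measure.pi_pi]
  refine (Fintype.prod_of_injective j hj _ _ ?_ ?_).symm
  · intro i hi
    have hi' : ¬ ∃ i', j i' = i := by simpa using hi
    simp only [t, dif_neg hi', measure_univ]
  · intro i'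
    rw [ht]

lemma pi_indep (j₁ : ι' → ι) (j₂ : ι'' → ι) (hj : Function.Injective (Sum.elim j₁ j₂))
    (ν : ι → Measure X) [∀ i, IsProbabilityMeasure (ν i)] {A : Set (ι' → X)} {B : Set (ι'' → X)}
    (hA : MeasurableSet A) (hB : MeasurableSet B) :
    (Measure.pi ν) {x | (fun i => x (j₁ i)) ∈ A ∧ (fun i => x (j₂ i)) ∈ B} =
      (Measure.pi fun i => ν (j₁ i)) A * (Measure.pi fun i => ν (j₂ i)) B := by
  have h1 := pi_comp_map (Sum.elim j₁ j₂) hj ν
  have h2 := (measurePreserving_sumPiEquivProdPi
    (fun i : ι' ⊕ ι'' => ν (Sum.elim j₁ j₂ i))).map_eq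
  rw [← h1] at h2
  have hm1 : Measurable (fun (x : ι → X) (i : ι' ⊕ ι'') => x (Sum.elim j₁ j₂ i)) := by fun_prop
  rw [Measure.map_map (MeasurableEquiv.measurable _) hm1] at h2
  have h3 := congrArg (fun m => m (A ×ˢ B)) h2
  simp only [Measure.prod_prod] at h3
  rw [Measure.map_apply ((MeasurableEquiv.measurable _).comp hm1) (hA.prod hB)] at h3
  simp only [Sum.elim_inl, Sum.elim_inr] at h3
  rw [← h3]
  rfl

end pigeneral

/-- the law of the approximations of `x`, with level `n i` at the vertex `i` and level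
`max_{i ∈ A} n i` at the coordinate `A`. -/
def Rm (s : ℕ → ℕ) {V : Type} [Fintype V] (n : V → ℕ) (x : EV V) : Measure (EV V) :=
  Measure.pi (fun A : NESub V => kap (s (A.1.sup n)) (x A))

instance (s : ℕ → ℕ) {V : Type} [Fintype V] (n : V → ℕ) (x : EV V) :
    IsProbabilityMeasure (Rm s n x) := by unfold Rm; infer_instance

/-- image of a nonempty subset. -/
def nemap {W V : Type} (α : W ↪ V) (A : NESub W) : NESub V := ⟨A.1.map α, A.2.map⟩

lemma nemap_inj {W V : Type} (α : W ↪ V) : Function.Injective (nemap α) := by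
  intro A B h
  have := congrArg Subtype.val h
  exact Subtype.ext (Finset.map_injective α this)

lemma pull_eq {W V : Type} (α : W ↪ V) : pull α = fun (x : EV V) A => x (nemap α A) := rfl

lemma measurable_pull {W V : Type} (α : W ↪ V) : Measurable (pull α) := by
  rw [pull_eq]
  fun_prop

lemma map_pull (s : ℕ → ℕ) {W V : Type} [Fintype V] [Fintype W] (α : W ↪ V) (n : V → ℕ)
    (x : EV V) : (Rm s n x).map (pull α) = Rm s (n ∘ α) (pull α x) := by
  unfold Rm
  rw [pull_eq, pi_comp_map (nemap α) (nemap_inj α)]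
  congr 1
  ext1 A
  have : (nemap α A).1.sup n = A.1.sup (n ∘ α) := by
    simp only [nemap, Finset.sup_map]
  rw [this]

lemma volume_pull {W V : Type} [Fintype V] [Fintype W] (α : W ↪ V) :
    (volume : Measure (EV V)).map (pull α) = volume := by
  have := pi_comp_map (nemap α) (nemap_inj α) (fun _ => (volume : Measure unitInterval))
  exact this

/-! ### `V = {0,1}` -/

def s0 : NESub (Fin 2) := sing 0
def s1 : NESub (Fin 2) := sing 1
def s01 : NESub (Fin 2) := ⟨{0, 1}, by simp⟩

lemma ne_cases (A : NESub (Fin 2)) : A = s0 ∨ A = s1 ∨ A = s01 := by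
  revert A
  decide

lemma univ_NE : (Finset.univ : Finset (NESub (Fin 2))) = {s0, s1, s01} := by
  decide

def toTriple (x : EV (Fin 2)) : unitInterval × (unitInterval × unitInterval) :=
  (x s0, x s1, x s01)

def ofTriple (z : unitInterval × (unitInterval × unitInterval)) : EV (Fin 2) :=
  fun A => if A = s0 then z.1 else if A = s1 then z.2.1 else z.2.2

lemma s0_ne_s1 : s0 ≠ s1 := by decide
lemma s1_ne_s0 : s1 ≠ s0 := by decide
lemma s01_ne_s0 : s01 ≠ s0 := by decide
lemma s01_ne_s1 : s01 ≠ s1 := by decide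

@[simp] lemma ofTriple_s0 (z) : ofTriple z s0 = z.1 := by simp [ofTriple]
@[simp] lemma ofTriple_s1 (z) : ofTriple z s1 = z.2.1 := by simp [ofTriple, s1_ne_s0]
@[simp] lemma ofTriple_s01 (z) : ofTriple z s01 = z.2.2 := by
  simp [ofTriple, s01_ne_s0, s01_ne_s1]

lemma toTriple_ofTriple (z) : toTriple (ofTriple z) = z := by
  simp [toTriple]

lemma ofTriple_toTriple (x) : ofTriple (toTriple x) = x := by
  ext1 A
  rcases ne_cases A with h | h | h <;> subst h <;> simp [toTriple]

lemma measurable_toTriple : Measurable toTriple := by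
  unfold toTriple
  fun_prop

lemma measurable_ofTriple : Measurable ofTriple := by
  refine measurable_pi_lambda _ fun A => ?_
  rcases ne_cases A with h | h | h <;> subst h <;> simp only [ofTriple_s0, ofTriple_s1,
    ofTriple_s01] <;> fun_prop

lemma pi_ofTriple (ν : NESub (Fin 2) → Measure unitInterval) [∀ A, IsProbabilityMeasure (ν A)] :
    Measure.pi ν = ((ν s0).prod ((ν s1).prod (ν s01))).map ofTriple := by
  refine Measure.pi_eq fun s hs => ?_
  rw [Measure.map_apply measurable_ofTriple (MeasurableSet.univ_pi hs)]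
  have : ofTriple ⁻¹' (pi univ s) = s s0 ×ˢ (s s1 ×ˢ s s01) := by
    ext z
    simp only [mem_preimage, Set.mem_pi, mem_univ, forall_const, mem_prod]
    constructor
    · intro h
      exact ⟨by simpa using h s0, by simpa using h s1, by simpa using h s01⟩
    · intro h A
      rcases ne_cases A with h' | h' | h' <;> subst h'
      · simpa using h.1
      · simpa using h.2.1
      · simpa using h.2.2
  rw [this, Measure.prod_prod, Measure.prod_prod, univ_NE]
  rw [Finset.prod_insert, Finset.prod_insert, Finset.prod_singleton]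
  · decide
  · decide

lemma volume_ofTriple : (volume : Measure (EV (Fin 2))) = vol3.map ofTriple :=
  pi_ofTriple (fun _ => (volume : Measure unitInterval))

lemma map_toTriple : (volume : Measure (EV (Fin 2))).map toTriple = vol3 := by
  rw [volume_ofTriple, Measure.map_map measurable_toTriple measurable_ofTriple]
  have : toTriple ∘ ofTriple = id := by
    ext1 z
    exact toTriple_ofTriple z
  rw [this, Measure.map_id]

lemma Rm_eq (s : ℕ → ℕ) (n : Fin 2 → ℕ) (x : EV (Fin 2)) :
    Rm s n x = ((kap (s (n 0)) (x s0)).prod ((kap (s (n 1)) (x s1)).prod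
      (kap (s (max (n 0) (n 1))) (x s01)))).map ofTriple := by
  unfold Rm
  rw [pi_ofTriple]
  have h0 : (s0.1 : Finset (Fin 2)).sup n = n 0 := by simp [s0, sing]
  have h1 : (s1.1 : Finset (Fin 2)).sup n = n 1 := by simp [s1, sing]
  have h2 : (s01.1 : Finset (Fin 2)).sup n = max (n 0) (n 1) := by simp [s01]
  rw [h0, h1, h2]

lemma Rm_eq_of_le (s : ℕ → ℕ) (n : Fin 2 → ℕ) (hn : n 0 ≤ n 1) (x : EV (Fin 2)) :
    Rm s n x = ((kap (s (n 0)) (toTriple x).1).prod
      (kap2 (s (n 1)) (toTriple x).2)).map ofTriple := by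
  rw [Rm_eq, max_eq_right hn, kap2_apply]
  rfl

lemma hm_form (k j : ℕ) : ∃ (c : ℝ≥0∞) (t : Set unitInterval), MeasurableSet t ∧
    hm k j = c • (volume : Measure unitInterval).restrict t := by
  unfold hm
  split_ifs with h
  · exact ⟨1, univ, MeasurableSet.univ, by simp⟩
  · exact ⟨(volume (cell k j))⁻¹, cell k j, measurableSet_cell k j, rfl⟩

lemma Rm_ac (s : ℕ → ℕ) {V : Type} [Fintype V] (n : V → ℕ) (x : EV V) :
    Rm s n x ≪ (volume : Measure (EV V)) := by
  have h : ∀ A : NESub V, ∃ (c : ℝ≥0∞) (t : Set unitInterval), MeasurableSet t ∧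
      kap (s (A.1.sup n)) (x A) = c • (volume : Measure unitInterval).restrict t := fun A =>
    hm_form _ _
  choose c t ht hct using h
  have h1 : Rm s n x = (∏ A, c A) • (volume : Measure (EV V)).restrict (pi univ t) := by
    refine Measure.pi_eq fun u hu => ?_
    simp only [hct, Measure.smul_apply, smul_eq_mul]
    rw [Measure.restrict_apply (MeasurableSet.univ_pi hu), ← pi_inter_distrib, volume_pi,
      Measure.pi_pi, ← Finset.prod_mul_distrib]
    refine Finset.prod_congr rfl fun A _ => ?_
    rw [Measure.restrict_apply (hu A)]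
  rw [h1]
  exact (Measure.restrict_le_self.absolutelyContinuous).smul_left _

end

end Pool.Agent.TH751.Theon
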