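import Pool.Agent.TH751.TheonD

/-!
The Borel version of a strong `T_{C_4}`-on.
-/

open MeasureTheory Set Filter Topology ProbabilityTheory Metric
open scoped ENNReal

namespace Pool.Agent.TH751.Theon

noncomputable section

/-- The structure on `V` read off at `y`. -/
def rel (N : Set (EV (Fin 2))) {V : Type} (y : EV V) (i j : V) : Prop :=
  ∃ α : Fin 2 ↪ V, α 0 = i ∧ α 1 = j ∧ pull α y ∈ N

lemma emb_ext {V : Type} {α β : Fin 2 ↪ V} (h0 : α 0 = β 0) (h1 : α 1 = β 1) : α = β := by
  ext i
  fin_cases i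
  · exact h0
  · exact h1

lemma mem_Tind_rel (N : Set (EV (Fin 2))) {V : Type} (y : EV V) : y ∈ Tind (rel N y) N := by
  intro α
  constructor
  · intro h
    exact ⟨α, rfl, rfl, h⟩
  · rintro ⟨β, h0, h1, h⟩
    rwa [emb_ext h0 h1] at h

lemma canonical_rel (N : Set (EV (Fin 2))) {V : Type} (y : EV V) : Canonical (rel N y) := by
  rintro v ⟨α, h0, h1, -⟩
  have : α 0 = α 1 := h0.trans h1.symm
  exact absurd (α.injective this) (by decide)

lemma StrongC4.model {N : Set (EV (Fin 2))} (h : StrongC4 N) {V : Type} [Fintype V] {y : EV V}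
    (hy : y ∉ diag V) : ModelC4 (rel N y) := by
  by_contra hM
  exact hy (h V (rel N y) (canonical_rel N y) hM (mem_Tind_rel N y))

lemma strongC4_of_model {N : Set (EV (Fin 2))}
    (h : ∀ (V : Type) [Fintype V] (y : EV V), y ∉ diag V → ModelC4 (rel N y)) : StrongC4 N := by
  intro V _ M hc hM y hy
  by_contra hyd
  have hMy := h V y hyd
  apply hM
  have : M = rel N y := by
    ext u v
    constructor
    · intro huv
      have hne : u ≠ v := by
        rintro rfl
        exact hc u huv
      let α : Fin 2 ↪ V := ⟨![u, v], by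
        intro i j hij
        fin_cases i <;> fin_cases j <;> simp_all⟩
      refine ⟨α, rfl, rfl, ?_⟩
      exact (hy α).2 huv
    · rintro ⟨α, rfl, rfl, hα⟩
      exact (hy α).1 hα
  rwa [this]

lemma pull_trans {U W V : Type} (α : U ↪ W) (β : W ↪ V) (x : EV V) :
    pull α (pull β x) = pull (α.trans β) x := by
  ext1 A
  unfold pull
  simp only [Finset.map_map]

/-- swap on `{0,1}`. -/
def sw : Fin 2 ↪ Fin 2 := (Equiv.swap 0 1).toEmbedding

lemma sw_sw : sw.trans sw = Function.Embedding.refl _ := by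
  apply emb_ext <;> simp [sw]

lemma pull_refl {V : Type} (x : EV V) : pull (Function.Embedding.refl _) x = x := by
  ext1 A
  unfold pull
  simp

lemma pull_sw_sw (x : EV (Fin 2)) : pull sw (pull sw x) = x := by
  rw [pull_trans, sw_sw, pull_refl]

/-- the diagonal of `𝓔_2`. -/
lemma diag2_null : (volume : Measure (EV (Fin 2))) {x | x s0 = x s1} = 0 := by
  rw [volume_ofTriple, Measure.map_apply measurable_ofTriple
    (measurableSet_eq_fun (by fun_prop) (by fun_prop))]
  have : ofTriple ⁻¹' {x | x s0 = x s1} = {z | z.1 = z.2.1} := by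
    ext z
    simp
  rw [this, Measure.prod_apply (measurableSet_eq_fun (by fun_prop) (by fun_prop))]
  rw [lintegral_eq_zero_iff' (by
    exact (measurable_measure_prodMk_left
      (measurableSet_eq_fun (by fun_prop) (by fun_prop))).aemeasurable)]
  refine Filter.Eventually.of_forall fun a => ?_
  have h2 : Prod.mk a ⁻¹' {z : unitInterval × (unitInterval × unitInterval) | z.1 = z.2.1}
      = {a} ×ˢ univ := by
    ext z
    simp [eq_comm]
  simp only [Pi.zero_apply]
  rw [h2, Measure.prod_prod, measure_singleton, zero_mul]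

lemma diag_subset {V : Type} : diag V ⊆ ⋃ α : Fin 2 ↪ V, pull α ⁻¹' {x | x s0 = x s1} := by
  rintro x ⟨i, j, hij, hx⟩
  let α : Fin 2 ↪ V := ⟨![i, j], by
    intro i j hij
    fin_cases i <;> fin_cases j <;> simp_all⟩
  refine mem_iUnion.2 ⟨α, ?_⟩
  have h0 : pull α x s0 = x (sing i) := by
    unfold pull
    congr 1
  have h1 : pull α x s1 = x (sing j) := by
    unfold pull
    congr 1
  change pull α x s0 = pull α x s1
  rw [h0, h1, hx]

lemma diagV_null {V : Type} [Fintype V] : (volume : Measure (EV V)) (diag V) = 0 := by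
  classical
  refine measure_mono_null diag_subset ?_
  rw [measure_iUnion_null_iff]
  intro α
  rw [← Measure.map_apply (measurable_pull α) (measurableSet_eq_fun (by fun_prop) (by fun_prop)),
    volume_pull, diag2_null]

lemma Rm_diag_null (s : ℕ → ℕ) {V : Type} [Fintype V] (n : V → ℕ) (x : EV V) :
    Rm s n x (diag V) = 0 := by
  classical
  refine measure_mono_null diag_subset ?_
  rw [measure_iUnion_null_iff]
  intro α
  rw [← Measure.map_apply (measurable_pull α) (measurableSet_eq_fun (by fun_prop) (by fun_prop)),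
    map_pull]
  exact Rm_ac s _ _ diag2_null

/-- the Borel modification. -/
def Nb (s : ℕ → ℕ) (S : Set (EV (Fin 2))) : Set (EV (Fin 2)) :=
  {x | Tendsto (fun n : Fin 2 → ℕ => Rm s n x Sᶜ) atTop (𝓝 0)}

lemma measurable_Rm (s : ℕ → ℕ) (n : Fin 2 → ℕ) {A : Set (EV (Fin 2))} (hA : MeasurableSet A) :
    Measurable fun x => Rm s n x A := by
  have h : ∀ x, Rm s n x A = ((kap (s (n 0))).parallelComp ((kap (s (n 1))).parallelComp
      (kap (s (max (n 0) (n 1)))))) (toTriple x) (ofTriple ⁻¹' A) := by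
    intro x
    rw [Rm_eq, Measure.map_apply measurable_ofTriple hA, Kernel.parallelComp_apply,
      Kernel.parallelComp_apply]
    rfl
  simp_rw [h]
  exact (Kernel.measurable_coe _ (measurable_ofTriple hA)).comp measurable_toTriple

lemma measurableSet_Nb (s : ℕ → ℕ) {S : Set (EV (Fin 2))} (hS : MeasurableSet S) :
    MeasurableSet (Nb s S) :=
  measurableSet_tendsto _ fun n => measurable_Rm s n hS.compl

section symm

variable {s : ℕ → ℕ} {S : Set (EV (Fin 2))}

lemma Rm_swap (hS : MeasurableSet S) (hsym : ∀ x, pull sw x ∈ S ↔ x ∈ S) (n : Fin 2 → ℕ)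
    (x : EV (Fin 2)) : Rm s (n ∘ sw) (pull sw x) Sᶜ = Rm s n x Sᶜ := by
  rw [← map_pull, Measure.map_apply (measurable_pull sw) hS.compl]
  congr 1
  ext y
  simp only [mem_preimage, mem_compl_iff, hsym]

lemma Rm_swap' (hS : MeasurableSet S) (hsym : ∀ x, pull sw x ∈ S ↔ x ∈ S) (n : Fin 2 → ℕ)
    (x : EV (Fin 2)) : Rm s (n ∘ sw) (pull sw x) S = Rm s n x S := by
  rw [← map_pull, Measure.map_apply (measurable_pull sw) hS]
  congr 1
  ext y
  simp only [mem_preimage, hsym]

lemma tendsto_eval (i : Fin 2) : Tendsto (fun n : Fin 2 → ℕ => n i) atTop atTop := by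
  refine tendsto_atTop.2 fun b => ?_
  exact (eventually_ge_atTop (fun _ => b)).mono fun n hn => hn i

lemma tendsto_comp_sw : Tendsto (fun n : Fin 2 → ℕ => n ∘ sw) atTop atTop := by
  refine tendsto_atTop.2 fun b => ?_
  refine (eventually_ge_atTop (b ∘ sw)).mono fun n hn i => ?_
  have := hn (sw i)
  have h2 : sw (sw i) = i := by
    have := congrArg (fun f : Fin 2 ↪ Fin 2 => f i) sw_sw
    simpa using this
  simp only [Function.comp_apply, h2] at this
  exact this

lemma comp_sw_sw (n : Fin 2 → ℕ) : (n ∘ sw) ∘ sw = n := by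
  ext i
  have h2 : sw (sw i) = i := by
    have := congrArg (fun f : Fin 2 ↪ Fin 2 => f i) sw_sw
    simpa using this
  simp only [Function.comp_apply, h2]

lemma Nb_symm (hS : MeasurableSet S) (hsym : ∀ x, pull sw x ∈ S ↔ x ∈ S) {x : EV (Fin 2)}
    (hx : x ∈ Nb s S) : pull sw x ∈ Nb s S := by
  have h := Tendsto.comp (g := fun n : Fin 2 → ℕ => Rm s n x Sᶜ) hx tendsto_comp_sw
  refine h.congr fun n => ?_
  simp only [Function.comp_apply]
  rw [← Rm_swap hS hsym (n ∘ sw) x, comp_sw_sw]

end symm

end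

end Pool.Agent.TH751.Theon
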