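import Pool.Agent.TH751.TheonE

/-!
The Borel version of a strong `T_{C_4}`-on: almost everywhere equality and the 4-cycle argument.
-/

open MeasureTheory Set Filter Topology ProbabilityTheory Metric
open scoped ENNReal

namespace Pool.Agent.TH751.Theon

noncomputable section

/-- the triple version of `S`. -/
def S3 (S : Set (EV (Fin 2))) : Set (unitInterval × (unitInterval × unitInterval)) :=
  ofTriple ⁻¹' S

lemma mem_S3 {S : Set (EV (Fin 2))} {x : EV (Fin 2)} : toTriple x ∈ S3 S ↔ x ∈ S := by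
  simp [S3, ofTriple_toTriple]

lemma Rm_compl_le {s : ℕ → ℕ} {S : Set (EV (Fin 2))} (hS : MeasurableSet S) {n : Fin 2 → ℕ}
    (hn : n 0 ≤ n 1) {x : EV (Fin 2)} (hx : x ∈ S) :
    Rm s n x Sᶜ ≤ errB (fun n => kap (s n)) (fun n => kap2 (s n)) (S3 S) (n 1) (toTriple x) +
      errB (fun n => kap (s n)) (fun n => kap2 (s n)) (S3 S) (n 0) (toTriple x) := by
  rw [Rm_eq_of_le s n hn, Measure.map_apply measurable_ofTriple hS.compl]
  exact prod_compl_le_errB _ _ (measurable_ofTriple hS) hn (mem_S3.2 hx)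

/-- combined error. -/
def errX (s : ℕ → ℕ) (S : Set (EV (Fin 2))) (x : EV (Fin 2)) (m : ℕ) : ℝ≥0∞ :=
  errB (fun n => kap (s n)) (fun n => kap2 (s n)) (S3 S) m (toTriple x) +
  errB (fun n => kap (s n)) (fun n => kap2 (s n)) (S3 S) m (toTriple (pull sw x))

lemma Rm_compl_le' {s : ℕ → ℕ} {S : Set (EV (Fin 2))} (hS : MeasurableSet S)
    (hsym : ∀ x, pull sw x ∈ S ↔ x ∈ S) (n : Fin 2 → ℕ) {x : EV (Fin 2)} (hx : x ∈ S) :
    Rm s n x Sᶜ ≤ errX s S x (n 0) + errX s S x (n 1) := by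
  have hsw0 : sw 0 = 1 := by simp [sw]
  have hsw1 : sw 1 = 0 := by simp [sw]
  rcases le_total (n 0) (n 1) with h | h
  · refine (Rm_compl_le hS h hx).trans ?_
    rw [add_comm]
    unfold errX
    exact add_le_add le_self_add le_self_add
  · rw [← Rm_swap hS hsym]
    have h' : (n ∘ sw) 0 ≤ (n ∘ sw) 1 := by simpa [hsw0, hsw1] using h
    refine (Rm_compl_le hS h' ((hsym x).2 hx)).trans ?_
    simp only [Function.comp_apply, hsw0, hsw1]
    unfold errX
    exact add_le_add le_add_self le_add_self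

lemma Rm_le' {s : ℕ → ℕ} {S : Set (EV (Fin 2))} (hS : MeasurableSet S)
    (hsym : ∀ x, pull sw x ∈ S ↔ x ∈ S) (n : Fin 2 → ℕ) {x : EV (Fin 2)} (hx : x ∉ S) :
    Rm s n x S ≤ errX s S x (n 0) + errX s S x (n 1) := by
  have h := Rm_compl_le' (s := s) hS.compl (fun x => by simp [hsym x]) n
    (show x ∈ Sᶜ from hx)
  have he : errX s Sᶜ x = errX s S x := by
    unfold errX
    have : S3 Sᶜ = (S3 S)ᶜ := rfl
    rw [this, errB_compl]
  rwa [he, compl_compl] at h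

lemma Nb_ae_eq {s : ℕ → ℕ} {S : Set (EV (Fin 2))} (hS : MeasurableSet S)
    (hsym : ∀ x, pull sw x ∈ S ↔ x ∈ S)
    (hs : ∀ᵐ z ∂vol3, Tendsto (fun m => errB (fun n => kap (s n)) (fun n => kap2 (s n)) (S3 S) m z)
      atTop (𝓝 0)) :
    ∀ᵐ x ∂(volume : Measure (EV (Fin 2))), x ∈ Nb s S ↔ x ∈ S := by
  have h1 : ∀ᵐ x ∂(volume : Measure (EV (Fin 2))), Tendsto (fun m => errB (fun n => kap (s n))
      (fun n => kap2 (s n)) (S3 S) m (toTriple x)) atTop (𝓝 0) := by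
    rw [← map_toTriple] at hs
    exact ae_of_ae_map measurable_toTriple.aemeasurable hs
  have h2 : ∀ᵐ x ∂(volume : Measure (EV (Fin 2))), Tendsto (fun m => errB (fun n => kap (s n))
      (fun n => kap2 (s n)) (S3 S) m (toTriple (pull sw x))) atTop (𝓝 0) := by
    have h3 := h1
    rw [← volume_pull sw] at h3
    exact ae_of_ae_map (measurable_pull sw).aemeasurable h3
  filter_upwards [h1, h2] with x hx1 hx2
  have hX : Tendsto (errX s S x) atTop (𝓝 0) := by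
    have := hx1.add hx2
    rw [add_zero] at this
    exact this
  have hX2 : Tendsto (fun n : Fin 2 → ℕ => errX s S x (n 0) + errX s S x (n 1)) atTop (𝓝 0) := by
    have := (hX.comp (tendsto_eval 0)).add (hX.comp (tendsto_eval 1))
    simpa using this
  constructor
  · intro hxN
    by_contra hxS
    have h3 : Tendsto (fun n : Fin 2 → ℕ => Rm s n x S) atTop (𝓝 0) :=
      tendsto_of_tendsto_of_tendsto_of_le_of_le tendsto_const_nhds hX2 (fun _ => zero_le)
        (fun n => Rm_le' hS hsym n hxS)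
    have h4 : Tendsto (fun n : Fin 2 → ℕ => Rm s n x S + Rm s n x Sᶜ) atTop (𝓝 (0 + 0)) :=
      h3.add hxN
    have h5 : (fun n : Fin 2 → ℕ => Rm s n x S + Rm s n x Sᶜ) = fun _ => 1 := by
      ext n
      rw [measure_add_measure_compl hS, measure_univ]
    rw [h5, add_zero] at h4
    exact zero_ne_one (tendsto_nhds_unique h4 tendsto_const_nhds)
  · intro hxS
    exact tendsto_of_tendsto_of_tendsto_of_le_of_le tendsto_const_nhds hX2 (fun _ => zero_le)
        (fun n => Rm_compl_le' hS hsym n hxS)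

/-- The embedding `0 ↦ i, 1 ↦ j`. -/
def em (i j : Fin 4) (h : i ≠ j) : Fin 2 ↪ Fin 4 := ⟨![i, j], by
    intro a b hab
    fin_cases a <;> fin_cases b <;> simp_all⟩

lemma em_zero (i j : Fin 4) (h : i ≠ j) : em i j h 0 = i := rfl
lemma em_one (i j : Fin 4) (h : i ≠ j) : em i j h 1 = j := rfl

lemma indep {s : ℕ → ℕ} {A : Set (EV (Fin 2))} (hA : MeasurableSet A) (n : Fin 4 → ℕ)
    (x : EV (Fin 4)) :
    Rm s n x {y | pull (em 0 2 (by decide)) y ∈ A ∧ pull (em 1 3 (by decide)) y ∈ A} =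
      Rm s n x {y | pull (em 0 2 (by decide)) y ∈ A} *
      Rm s n x {y | pull (em 1 3 (by decide)) y ∈ A} := by
  have hinj : Function.Injective (Sum.elim (nemap (em 0 2 (by decide)))
      (nemap (em 1 3 (by decide)))) := by
    intro a b hab
    rcases a with a | a <;> rcases b with b | b
    · simp only [Sum.elim_inl] at hab
      rw [nemap_inj _ hab]
    · exfalso
      simp only [Sum.elim_inl, Sum.elim_inr] at hab
      obtain ⟨i, hi⟩ := a.2
      have h1 : (em 0 2 (by decide)) i ∈ (nemap (em 0 2 (by decide)) a).1 :=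
        Finset.mem_map_of_mem _ hi
      rw [hab] at h1
      obtain ⟨j, _, hj⟩ := Finset.mem_map.1 h1
      revert hj
      fin_cases i <;> fin_cases j <;> decide
    · exfalso
      simp only [Sum.elim_inl, Sum.elim_inr] at hab
      obtain ⟨i, hi⟩ := a.2
      have h1 : (em 1 3 (by decide)) i ∈ (nemap (em 1 3 (by decide)) a).1 :=
        Finset.mem_map_of_mem _ hi
      rw [hab] at h1
      obtain ⟨j, _, hj⟩ := Finset.mem_map.1 h1
      revert hj
      fin_cases i <;> fin_cases j <;> decide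
    · simp only [Sum.elim_inr] at hab
      rw [nemap_inj _ hab]
  have h := pi_indep (nemap (em 0 2 (by decide))) (nemap (em 1 3 (by decide))) hinj
    (fun A : NESub (Fin 4) => kap (s (A.1.sup n)) (x A)) hA hA
  have h1 := pi_comp_map (nemap (em 0 2 (by decide))) (nemap_inj _)
    (fun A : NESub (Fin 4) => kap (s (A.1.sup n)) (x A))
  have h2 := pi_comp_map (nemap (em 1 3 (by decide))) (nemap_inj _)
    (fun A : NESub (Fin 4) => kap (s (A.1.sup n)) (x A))
  rw [← h1, ← h2, Measure.map_apply (by fun_prop) hA, Measure.map_apply (by fun_prop) hA] at h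
  exact h

theorem core {s : ℕ → ℕ} {S N : Set (EV (Fin 2))} (hS : MeasurableSet S)
    (hSN : ∀ᵐ x ∂(volume : Measure (EV (Fin 2))), x ∈ S ↔ x ∈ N)
    (hN : ∀ᵐ y ∂(volume : Measure (EV (Fin 4))), ModelC4 (rel N y))
    (x : EV (Fin 4))
    (h01 : pull (em 0 1 (by decide)) x ∈ Nb s S) (h12 : pull (em 1 2 (by decide)) x ∈ Nb s S)
    (h23 : pull (em 2 3 (by decide)) x ∈ Nb s S) (h30 : pull (em 3 0 (by decide)) x ∈ Nb s S)
    (h02 : pull (em 0 2 (by decide)) x ∉ Nb s S) (h13 : pull (em 1 3 (by decide)) x ∉ Nb s S) :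
    False := by
  -- the two non-edges
  have hneg : ∀ {x : EV (Fin 2)}, x ∉ Nb s S → ∃ ε : ℝ≥0∞, 0 < ε ∧
      ∀ a : Fin 2 → ℕ, ∃ b ≥ a, ε < Rm s b x Sᶜ := by
    intro x hx
    have hx' : ¬ Tendsto (fun n : Fin 2 → ℕ => Rm s n x Sᶜ) atTop (𝓝 0) := hx
    rw [ENNReal.tendsto_nhds_zero] at hx'
    push Not at hx'
    obtain ⟨ε, hε, hfreq⟩ := hx'
    refine ⟨ε, hε, fun a => ?_⟩
    obtain ⟨b, hb, hb2⟩ := Filter.frequently_atTop.1 hfreq a
    exact ⟨b, hb, hb2⟩
  have hpos : ∀ {x : EV (Fin 2)}, x ∈ Nb s S → ∀ ε : ℝ≥0∞, 0 < ε →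
      ∃ a : ℕ, ∀ b : Fin 2 → ℕ, a ≤ b 0 → a ≤ b 1 → Rm s b x Sᶜ ≤ ε := by
    intro x hx ε hε
    have hx' : Tendsto (fun n : Fin 2 → ℕ => Rm s n x Sᶜ) atTop (𝓝 0) := hx
    rw [ENNReal.tendsto_nhds_zero] at hx'
    obtain ⟨a, ha⟩ := Filter.eventually_atTop.1 (hx' ε hε)
    refine ⟨max (a 0) (a 1), fun b hb0 hb1 => ha b ?_⟩
    intro i
    fin_cases i
    · exact (le_max_left _ _).trans hb0
    · exact (le_max_right _ _).trans hb1
  obtain ⟨ε₁, hε₁, hf1⟩ := hneg h02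
  obtain ⟨ε₂, hε₂, hf2⟩ := hneg h13
  set η : ℝ≥0∞ := ε₁ * ε₂ / 2 / 4 with hη
  have hη0 : 0 < η := by
    refine ENNReal.div_pos (ENNReal.div_pos (mul_ne_zero hε₁.ne' hε₂.ne') (by norm_num)).ne'
      (by norm_num)
  obtain ⟨a1, ha1⟩ := hpos h01 η hη0
  obtain ⟨a2, ha2⟩ := hpos h12 η hη0
  obtain ⟨a3, ha3⟩ := hpos h23 η hη0
  obtain ⟨a4, ha4⟩ := hpos h30 η hη0
  set M : ℕ := max (max a1 a2) (max a3 a4) with hM
  have hM1 : a1 ≤ M := (le_max_left _ _).trans (le_max_left _ _)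
  have hM2 : a2 ≤ M := (le_max_right _ _).trans (le_max_left _ _)
  have hM3 : a3 ≤ M := (le_max_left _ _).trans (le_max_right _ _)
  have hM4 : a4 ≤ M := (le_max_right _ _).trans (le_max_right _ _)
  obtain ⟨b, hb, hbε⟩ := hf1 (fun _ => M)
  obtain ⟨c, hc, hcε⟩ := hf2 (fun _ => M)
  have hb0 : M ≤ b 0 := hb 0
  have hb1 : M ≤ b 1 := hb 1
  have hc0 : M ≤ c 0 := hc 0
  have hc1 : M ≤ c 1 := hc 1
  let n : Fin 4 → ℕ := ![b 0, c 0, b 1, c 1]
  have hn0 : n 0 = b 0 := rfl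
  have hn1 : n 1 = c 0 := rfl
  have hn2 : n 2 = b 1 := rfl
  have hn3 : n 3 = c 1 := rfl
  set P := Rm s n x with hP
  have hpull : ∀ (α : Fin 2 ↪ Fin 4), P {y | pull α y ∈ Sᶜ} = Rm s (n ∘ α) (pull α x) Sᶜ := by
    intro α
    rw [← map_pull, Measure.map_apply (measurable_pull α) hS.compl]
    rfl
  have e02 : P {y | pull (em 0 2 (by decide)) y ∈ Sᶜ} > ε₁ := by
    rw [hpull]
    have : n ∘ (em 0 2 (by decide)) = b := by
      ext i
      fin_cases i <;> rfl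
    rw [this]
    exact hbε
  have e13 : P {y | pull (em 1 3 (by decide)) y ∈ Sᶜ} > ε₂ := by
    rw [hpull]
    have : n ∘ (em 1 3 (by decide)) = c := by
      ext i
      fin_cases i <;> rfl
    rw [this]
    exact hcε
  have d01 : P {y | pull (em 0 1 (by decide)) y ∈ Sᶜ} ≤ η := by
    rw [hpull]
    exact ha1 _ (by simpa [em_zero, hn0] using hM1.trans hb0)
      (by simpa [em_one, hn1] using hM1.trans hc0)
  have d12 : P {y | pull (em 1 2 (by decide)) y ∈ Sᶜ} ≤ η := by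
    rw [hpull]
    exact ha2 _ (by simpa [em_zero, hn1] using hM2.trans hc0)
      (by simpa [em_one, hn2] using hM2.trans hb1)
  have d23 : P {y | pull (em 2 3 (by decide)) y ∈ Sᶜ} ≤ η := by
    rw [hpull]
    exact ha3 _ (by simpa [em_zero, hn2] using hM3.trans hb1)
      (by simpa [em_one, hn3] using hM3.trans hc1)
  have d30 : P {y | pull (em 3 0 (by decide)) y ∈ Sᶜ} ≤ η := by
    rw [hpull]
    exact ha4 _ (by simpa [em_zero, hn3] using hM4.trans hc1)
      (by simpa [em_one, hn0] using hM4.trans hb0)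
  -- null sets
  have hnull : ∀ α : Fin 2 ↪ Fin 4, P {y | ¬ (pull α y ∈ S ↔ pull α y ∈ N)} = 0 := by
    intro α
    have h1 : ∀ᵐ y ∂(Rm s (n ∘ α) (pull α x)), y ∈ S ↔ y ∈ N :=
      (Rm_ac s _ _).ae_le hSN
    rw [← map_pull] at h1
    exact ae_of_ae_map (measurable_pull α).aemeasurable h1
  have hdiag : P {y | ¬ ModelC4 (rel N y)} = 0 := (Rm_ac s n x).ae_le hN
  -- the exceptional set
  set Bad : Set (EV (Fin 4)) :=
    ({y | pull (em 0 1 (by decide)) y ∈ Sᶜ} ∪ {y | pull (em 1 2 (by decide)) y ∈ Sᶜ}) ∪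
    ({y | pull (em 2 3 (by decide)) y ∈ Sᶜ} ∪ {y | pull (em 3 0 (by decide)) y ∈ Sᶜ}) with hBad
  set Nul : Set (EV (Fin 4)) :=
    (⋃ α : Fin 2 ↪ Fin 4, {y | ¬ (pull α y ∈ S ↔ pull α y ∈ N)}) ∪
    {y | ¬ ModelC4 (rel N y)} with hNul
  have hNul0 : P Nul = 0 := by
    rw [hNul, measure_union_null_iff, measure_iUnion_null_iff]
    exact ⟨hnull, hdiag⟩
  have hBadle : P Bad ≤ (η + η) + (η + η) := by
    refine (measure_union_le _ _).trans (add_le_add ?_ ?_)
    · exact (measure_union_le _ _).trans (add_le_add d01 d12)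
    · exact (measure_union_le _ _).trans (add_le_add d23 d30)
  have hgood : ε₁ * ε₂ ≤ P {y | pull (em 0 2 (by decide)) y ∈ Sᶜ ∧
      pull (em 1 3 (by decide)) y ∈ Sᶜ} := by
    rw [hP, indep hS.compl]
    exact mul_le_mul' e02.le e13.le
  have hfin : ε₁ * ε₂ ≠ ∞ := ne_top_of_le_ne_top (measure_ne_top P _) hgood
  have hlt : P (Bad ∪ Nul) < P {y | pull (em 0 2 (by decide)) y ∈ Sᶜ ∧
      pull (em 1 3 (by decide)) y ∈ Sᶜ} := by
    refine lt_of_lt_of_le ?_ hgood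
    calc P (Bad ∪ Nul) ≤ P Bad + P Nul := measure_union_le _ _
      _ ≤ (η + η) + (η + η) := by rw [hNul0, add_zero]; exact hBadle
      _ = ε₁ * ε₂ / 2 := by
          have h4 : (4 : ℝ≥0∞) * η = ε₁ * ε₂ / 2 := by
            rw [hη]
            exact ENNReal.mul_div_cancel (by norm_num) (by norm_num)
          rw [← h4]
          ring
      _ < ε₁ * ε₂ := ENNReal.half_lt_self (mul_ne_zero hε₁.ne' hε₂.ne') hfin
  obtain ⟨y, hy1, hy2⟩ : ∃ y, y ∈ {y | pull (em 0 2 (by decide)) y ∈ Sᶜ ∧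
      pull (em 1 3 (by decide)) y ∈ Sᶜ} ∧ y ∉ Bad ∪ Nul := by
    by_contra hcon
    push Not at hcon
    exact absurd (measure_mono (μ := P) (show {y | pull (em 0 2 (by decide)) y ∈ Sᶜ ∧
      pull (em 1 3 (by decide)) y ∈ Sᶜ} ⊆ Bad ∪ Nul from hcon)) (not_le.2 hlt)
  simp only [hBad, hNul, mem_union, mem_iUnion, mem_ofPred_eq, mem_compl_iff, not_or, not_exists,
    not_not] at hy1 hy2
  obtain ⟨⟨⟨k01, k12⟩, k23, k30⟩, kN, hmodel⟩ := hy2
  refine hmodel.2.2 0 1 2 3 (by decide) (by decide) (by decide) (by decide) (by decide)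
    (by decide) ⟨⟨em 0 1 (by decide), rfl, rfl, (kN _).1 k01⟩,
      ⟨em 1 2 (by decide), rfl, rfl, (kN _).1 k12⟩, ⟨em 2 3 (by decide), rfl, rfl, (kN _).1 k23⟩,
      ⟨em 3 0 (by decide), rfl, rfl, (kN _).1 k30⟩, ?_, ?_⟩
  · rintro ⟨α, h0, h1, hα⟩
    have : α = em 0 2 (by decide) := emb_ext h0 h1
    rw [this] at hα
    exact hy1.1 ((kN _).2 hα)
  · rintro ⟨α, h0, h1, hα⟩
    have : α = em 1 3 (by decide) := emb_ext h0 h1
    rw [this] at hα
    exact hy1.2 ((kN _).2 hα)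

end

end Pool.Agent.TH751.Theon
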